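import Pool.Agent.Helper71.HN.SheetX

/-! Row DIV of sheet X (MP_2a8cc2_nt). -/

set_option autoImplicit false

namespace Pool.Agent.Helper91.HX

open Polynomial Pool.Agent.Helper71.HX

/-- the elements of `K` of size at most `1` -/
def ring {F Ω : Type} [Field F] [Field Ω] [Algebra F Ω] (K : IntermediateField F Ω)
    (v : AbsoluteValue Ω ℝ) (hu : ∀ a b, v (a + b) ≤ max (v a) (v b)) : Subring K where
  carrier := {a | v (a : Ω) ≤ 1}
  mul_mem' := by
    intro a b ha hb
    show v ((a * b : K) : Ω) ≤ 1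
    have h : ((a * b : K) : Ω) = (a : Ω) * (b : Ω) := rfl
    rw [h, map_mul]
    exact mul_le_one₀ ha (v.nonneg _) hb
  one_mem' := by
    show v ((1 : K) : Ω) ≤ 1
    have h : ((1 : K) : Ω) = 1 := rfl
    rw [h, map_one]
  add_mem' := by
    intro a b ha hb
    show v ((a + b : K) : Ω) ≤ 1
    have h : ((a + b : K) : Ω) = (a : Ω) + (b : Ω) := rfl
    rw [h]
    exact (hu _ _).trans (max_le ha hb)
  zero_mem' := by
    show v ((0 : K) : Ω) ≤ 1
    have h : ((0 : K) : Ω) = 0 := rfl
    rw [h, map_zero]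
    exact zero_le_one
  neg_mem' := by
    intro a ha
    show v ((-a : K) : Ω) ≤ 1
    have h : ((-a : K) : Ω) = -(a : Ω) := rfl
    rw [h, AbsoluteValue.map_neg]
    exact ha

/-- row DIV -/
theorem div : ST_DIV := by
  intro F Ω _ _ _ K v G P hu hG hGc hPc hdvd
  obtain ⟨Q, hQ⟩ := hdvd
  refine ⟨Q, hQ, ?_⟩
  set O := ring K v hu with hO
  have hlift : ∀ R : K[X], (∀ i, v (R.coeff i : Ω) ≤ 1) → ∃ R' : O[X], R'.map O.subtype = R := by
    intro R hR
    have : R ∈ lifts O.subtype := by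
      rw [lifts_iff_coeff_lifts]
      intro n
      exact ⟨⟨R.coeff n, hR n⟩, rfl⟩
    exact (mem_lifts R).1 this
  obtain ⟨P', hP'⟩ := hlift P hPc
  obtain ⟨G', hG'⟩ := hlift G hGc
  have hGm : G'.Monic := by
    have hinj : Function.Injective O.subtype := Subtype.val_injective
    refine monic_of_injective hinj ?_
    rw [hG']
    exact hG
  have h1 : (P' /ₘ G').map O.subtype = Q := by
    rw [map_divByMonic _ hGm, hP', hG', hQ, mul_divByMonic_cancel_left _ hG]
  intro i
  rw [← h1, coeff_map]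
  exact ((P' /ₘ G').coeff i).2

end Pool.Agent.Helper91.HX
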