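import Pool.Agent.Helper71.HN.SheetX

/-! Row LOCC of sheet X (MP_2a8cc2_nt). -/

set_option autoImplicit false

namespace Pool.Agent.Helper91.HX

open Polynomial Pool.Agent.Helper71.HX Pool.Agent.Helper71.HN Pool.Agent.Helper77.HE

section Aux
variable {F Ω : Type} [Field F] [Field Ω] [Algebra F Ω] {K : IntermediateField F Ω}

/-- polynomials with integral coefficients at integral points -/
theorem aeval_int (v : AbsoluteValue Ω ℝ) (hu : ∀ a b, v (a + b) ≤ max (v a) (v b)) (x : Ω)
    (hx : v x ≤ 1) (P : K[X]) (hP : ∀ i, v (P.coeff i : Ω) ≤ 1) : v (aeval x P) ≤ 1 := by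
  rw [aeval_eq_sum_range]
  have hgen : ∀ n : ℕ, v (∑ i ∈ Finset.range n, P.coeff i • x ^ i) ≤ 1 := by
    intro n
    induction n with
    | zero =>
      rw [Finset.sum_range_zero, map_zero]
      exact zero_le_one
    | succ n ih =>
      rw [Finset.sum_range_succ]
      refine (hu _ _).trans (max_le ih ?_)
      rw [Algebra.smul_def, map_mul, map_pow]
      have h1 : v (algebraMap K Ω (P.coeff n)) ≤ 1 := hP n
      exact mul_le_one₀ h1 (pow_nonneg (v.nonneg _) _) (pow_le_one₀ (v.nonneg _) hx)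
  exact hgen _

/-- divisibility by a power of `G` -/
theorem aeval_dvd (hDIV : ST_DIV) (v : AbsoluteValue Ω ℝ) (hu : ∀ a b, v (a + b) ≤ max (v a) (v b))
    (x : Ω) (hx : v x ≤ 1) (G : K[X]) (hG : G.Monic) (hGc : ∀ i, v (G.coeff i : Ω) ≤ 1) (a : ℕ) :
    ∀ P : K[X], (∀ i, v (P.coeff i : Ω) ≤ 1) → G ^ a ∣ P → v (aeval x P) ≤ v (aeval x G) ^ a := by
  induction a with
  | zero =>
    intro P hP _
    rw [pow_zero]
    exact aeval_int v hu x hx P hP
  | succ a ih =>
    intro P hP hd
    have h1 : G ∣ P := (dvd_pow_self G (Nat.succ_ne_zero a)).trans hd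
    obtain ⟨Q, hQ, hQc⟩ := hDIV F Ω K v G P hu hG hGc hP h1
    have h2 : G ^ a ∣ Q := by
      rw [hQ, pow_succ'] at hd
      exact (mul_dvd_mul_iff_left hG.ne_zero).1 hd
    have h3 := ih Q hQc h2
    rw [hQ, map_mul, map_mul, pow_succ']
    exact mul_le_mul_of_nonneg_left h3 (v.nonneg _)

/-- the polynomial with given coefficients -/
noncomputable def pol (n : ℕ) : (Fin n → K) →ₗ[K] K[X] where
  toFun u := ∑ i, C (u i) * X ^ (i : ℕ)
  map_add' u w := by
    rw [← Finset.sum_add_distrib]
    refine Finset.sum_congr rfl fun i _ => ?_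
    rw [Pi.add_apply, C_add, add_mul]
  map_smul' c u := by
    rw [RingHom.id_apply, Finset.smul_sum]
    refine Finset.sum_congr rfl fun i _ => ?_
    rw [Pi.smul_apply, smul_eq_mul, C_mul, smul_eq_C_mul, mul_assoc]

theorem pol_coeff (n : ℕ) (u : Fin n → K) (i : ℕ) :
    (pol n u).coeff i = if h : i < n then u ⟨i, h⟩ else 0 := by
  show (∑ j : Fin n, C (u j) * X ^ (j : ℕ)).coeff i = _
  rw [finsetSum_coeff]
  simp only [coeff_C_mul_X_pow]
  by_cases h : i < n
  · rw [dif_pos h, Finset.sum_eq_single ⟨i, h⟩]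
    · rw [if_pos rfl]
    · intro j _ hj
      rw [if_neg]
      intro h2
      exact hj (Fin.ext h2.symm)
    · intro h2
      exact absurd (Finset.mem_univ _) h2
  · rw [dif_neg h]
    refine Finset.sum_eq_zero fun j _ => ?_
    rw [if_neg]
    intro h2
    exact h (h2 ▸ j.2)

theorem pol_aeval (n : ℕ) (u : Fin n → K) (x : Ω) :
    aeval x (pol n u) = ∑ i, (u i : Ω) * x ^ (i : ℕ) := by
  show aeval x (∑ j : Fin n, C (u j) * X ^ (j : ℕ)) = _
  rw [map_sum]
  refine Finset.sum_congr rfl fun i _ => ?_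
  rw [map_mul, aeval_C, map_pow, aeval_X]
  rfl

/-- remainders modulo a monic polynomial -/
noncomputable def rem (H : K[X]) (hH : H.Monic) (d : ℕ) (hd : H.natDegree = d) :
    K[X] →ₗ[K] degreeLT K d where
  toFun P := ⟨P %ₘ H, by
    rw [mem_degreeLT]
    refine (degree_modByMonic_lt P hH).trans_le ?_
    rw [degree_eq_natDegree hH.ne_zero, hd]⟩
  map_add' P Q := by
    refine Subtype.ext ?_
    show (P + Q) %ₘ H = P %ₘ H + Q %ₘ H
    rw [add_modByMonic]
  map_smul' c P := by
    refine Subtype.ext ?_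
    show (c • P) %ₘ H = c • (P %ₘ H)
    rw [smul_modByMonic]

theorem rem_eq_zero (H : K[X]) (hH : H.Monic) (d : ℕ) (hd : H.natDegree = d) (P : K[X]) :
    rem H hH d hd P = 0 ↔ H ∣ P := by
  rw [← modByMonic_eq_zero_iff_dvd hH]
  constructor
  · intro h
    exact congrArg Subtype.val h
  · intro h
    exact Subtype.ext h

end Aux

/-- row LOCC -/
theorem locc (hDIV : ST_DIV) : ST_LOCC := by
  intro F Ω _ _ _ _ K v g N f G c x y hv hF hfm hfd hcu hx hGm hG1 hGc hc hGx
  obtain ⟨hu, hq⟩ := hv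
  set M : ℕ := N + g + 1 with hM
  set k : ℕ := G.natDegree with hk
  have hvy : v y ≤ 1 := by
    have h1 : v (y ^ 2) ≤ 1 := by
      rw [hcu]
      exact aeval_le1 v hu hF x hx f
    rw [map_pow] at h1
    by_contra h2
    push Not at h2
    have h3 : 1 < v y ^ 2 := one_lt_pow₀ h2 (by norm_num)
    exact absurd h1 (not_le.2 h3)
  have hmon : ∀ b : ℕ, (G ^ (b / (2 * k))).Monic := fun b => hGm.pow _
  have hdeg : ∀ b : ℕ, (G ^ (b / (2 * k))).natDegree = b / (2 * k) * k := fun b => hGm.natDegree_pow _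
  let L : ∀ b : ℕ, ((Fin M ⊕ Fin N) → K) →ₗ[K]
      (degreeLT K (b / (2 * k) * k) × degreeLT K (b / (2 * k) * k)) := fun b =>
    LinearMap.prod
      ((rem _ (hmon b) _ (hdeg b)).comp ((pol M).comp (LinearMap.funLeft K K Sum.inl)))
      ((rem _ (hmon b) _ (hdeg b)).comp ((pol N).comp (LinearMap.funLeft K K Sum.inr)))
  refine ⟨fun b => LinearMap.ker (L b), fun b hb => ?_, fun b hb u hub huv => ?_⟩
  · show 2 * N + g + 1 ≤ Module.finrank K (LinearMap.ker (L b)) + b
    have h1 := LinearMap.finrank_range_add_finrank_ker (L b)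
    have h2 : Module.finrank K (LinearMap.range (L b)) ≤
        Module.finrank K (degreeLT K (b / (2 * k) * k) × degreeLT K (b / (2 * k) * k)) :=
      Submodule.finrank_le _
    have h3 : Module.finrank K (degreeLT K (b / (2 * k) * k)) = b / (2 * k) * k := by
      rw [LinearEquiv.finrank_eq (degreeLTEquiv K (b / (2 * k) * k)), Module.finrank_pi,
        Fintype.card_fin]
    rw [Module.finrank_prod, h3] at h2
    rw [Module.finrank_pi, Fintype.card_sum, Fintype.card_fin, Fintype.card_fin] at h1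
    have h4 : b / (2 * k) * (2 * k) ≤ b := Nat.div_mul_le_self _ _
    have h5 : b / (2 * k) * k + b / (2 * k) * k = b / (2 * k) * (2 * k) := by ring
    omega
  · have hub' : L b u = 0 := LinearMap.mem_ker.1 hub
    have hA : G ^ (b / (2 * k)) ∣ pol M (fun i => u (Sum.inl i)) :=
      (rem_eq_zero _ (hmon b) _ (hdeg b) _).1 (congrArg Prod.fst hub')
    have hB : G ^ (b / (2 * k)) ∣ pol N (fun i => u (Sum.inr i)) :=
      (rem_eq_zero _ (hmon b) _ (hdeg b) _).1 (congrArg Prod.snd hub')
    have hAc : ∀ i, v ((pol M (fun i => u (Sum.inl i))).coeff i : Ω) ≤ 1 := by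
      intro i
      rw [pol_coeff]
      by_cases h : i < M
      · rw [dif_pos h]
        exact huv _
      · rw [dif_neg h]
        show v (0 : Ω) ≤ 1
        rw [map_zero]
        exact zero_le_one
    have hBc : ∀ i, v ((pol N (fun i => u (Sum.inr i))).coeff i : Ω) ≤ 1 := by
      intro i
      rw [pol_coeff]
      by_cases h : i < N
      · rw [dif_pos h]
        exact huv _
      · rw [dif_neg h]
        show v (0 : Ω) ≤ 1
        rw [map_zero]
        exact zero_le_one
    have h1 := aeval_dvd hDIV v hu x hx G hGm hGc _ _ hAc hA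
    have h2 := aeval_dvd hDIV v hu x hx G hGm hGc _ _ hBc hB
    have h3 : v (aeval x G) ^ (b / (2 * k)) ≤ Real.exp ((b / 2 - k) * c) := by
      calc v (aeval x G) ^ (b / (2 * k)) ≤ Real.exp (k * c) ^ (b / (2 * k)) :=
            pow_le_pow_left₀ (v.nonneg _) hGx _
        _ = Real.exp (((b / (2 * k) : ℕ) : ℝ) * (k * c)) := by rw [← Real.exp_nat_mul]
        _ ≤ Real.exp ((b / 2 - k) * c) := by
          rw [Real.exp_le_exp, ← mul_assoc]
          refine mul_le_mul_of_nonpos_right ?_ hc
          have h4 : b < (b / (2 * k) + 1) * (2 * k) := by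
            have := Nat.lt_div_mul_add (a := b) (b := 2 * k) (by omega)
            rw [add_mul, one_mul]
            exact this
          have h5 : (b : ℝ) < (((b / (2 * k) : ℕ) : ℝ) + 1) * (2 * k) := by exact_mod_cast h4
          linarith
    have h4 : ∑ i, (u i : Ω) * eE x y M N i =
        aeval x (pol M (fun i => u (Sum.inl i))) + aeval x (pol N (fun i => u (Sum.inr i))) * y := by
      rw [Fintype.sum_sum_type, pol_aeval, pol_aeval, Finset.sum_mul]
      congr 1
      refine Finset.sum_congr rfl fun i _ => ?_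
      show (u (Sum.inr i) : Ω) * (x ^ (i : ℕ) * y) = _
      rw [mul_assoc]
    rw [h4]
    refine (hu _ _).trans (max_le (h1.trans h3) ?_)
    rw [map_mul]
    calc v (aeval x (pol N (fun i => u (Sum.inr i)))) * v y ≤
          v (aeval x (pol N (fun i => u (Sum.inr i)))) * 1 :=
          mul_le_mul_of_nonneg_left hvy (v.nonneg _)
      _ ≤ _ := by
          rw [mul_one]
          exact h2.trans h3

end Pool.Agent.Helper91.HX
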