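import Pool.Agent.Helper71.HN.SheetX

/-! Row SQR of sheet X (MP_2a8cc2_nt). -/

set_option autoImplicit false

namespace Pool.Agent.Helper91.HX

open Polynomial Pool.Agent.Helper71.HX Pool.Agent.Helper71.HN Pool.Agent.Helper77.HE

/-- row SQR -/
theorem sqr : ST_SQR := by
  intro F Ω _ _ _ _ v g J f lam x y hv hF hfm hfd hcu hl hx
  obtain ⟨hu, hq⟩ := hv
  have hF0 : CharZero F := by
    refine ⟨fun a b hab => ?_⟩
    have h1 := congrArg (algebraMap F Ω) hab
    rw [map_natCast, map_natCast] at h1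
    exact_mod_cast h1
  have hx0 : x ≠ 0 := by
    intro h0
    rw [h0, map_zero] at hx
    exact (Real.exp_pos lam).ne hx
  set z : Ω := x⁻¹ with hz
  have hz0 : z ≠ 0 := inv_ne_zero hx0
  have hzx : z⁻¹ = x := inv_inv x
  have hvz : v z = Real.exp (-lam) := by
    rw [hz, map_inv₀, hx, Real.exp_neg]
  have hz1 : v z < 1 := by
    rw [hvz]
    exact Real.exp_lt_one_iff.2 (by linarith)
  set R : F[X] := reflect (2 * g + 2) f with hR
  have hR0 : R.coeff 0 = 1 := by
    rw [hR, coeff_reflect, revAt_le (Nat.zero_le _), Nat.sub_zero, ← hfd]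
    exact hfm
  obtain ⟨S, hS0, hS⟩ := sqrt_poly F R hR0 (J + 1) (by omega)
  set s : Ω := aeval z S with hs
  set t : Ω := y * z ^ (g + 1) with ht
  have hRz : aeval z R = z ^ (2 * g + 2) * aeval x f := by
    rw [hR, aeval_refl f (2 * g + 2) hfd.le z hz0, hzx]
  have hts : (t - s) * (t + s) = -(aeval z (S ^ 2 - R)) := by
    rw [map_sub, map_pow, hRz, ← hcu, ← hs, ht]
    ring
  have hvts : v (t - s) * v (t + s) ≤ Real.exp (-(((J + 1 : ℕ) : ℝ) * lam)) := by
    rw [← map_mul, hts, AbsoluteValue.map_neg]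
    refine (aeval_le_pow v hu hF z hz1.le _ _ hS).trans (le_of_eq ?_)
    rw [hvz, ← Real.exp_nat_mul]
    congr 1
    ring
  have hs1 : v (s - 1) < 1 := by
    have h1 : (X ^ 1 : F[X]) ∣ S - 1 := by
      rw [pow_one, X_dvd_iff, coeff_sub, hS0, coeff_one_zero, sub_self]
    have h2 := aeval_le_pow v hu hF z hz1.le _ 1 h1
    rw [map_sub, map_one, pow_one] at h2
    exact lt_of_le_of_lt h2 hz1
  have hvs : 1 ≤ v s := by
    have h1 : v (1 : Ω) ≤ max (v s) (v (s - 1)) := by
      have h2 := hu s (-(s - 1))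
      rw [AbsoluteValue.map_neg] at h2
      have h3 : s + -(s - 1) = 1 := by ring
      rwa [h3] at h2
    rw [map_one] at h1
    rcases le_max_iff.1 h1 with h2 | h2
    · exact h2
    · exact absurd h2 (not_le.2 hs1)
  have h2 : v (2 : Ω) = 1 := by
    have := hq 2 (by norm_num)
    exact_mod_cast this
  have h2s : 1 ≤ max (v (t + s)) (v (t - s)) := by
    have h3 := hu (t + s) (-(t - s))
    rw [AbsoluteValue.map_neg] at h3
    have h4 : t + s + -(t - s) = 2 * s := by ring
    rw [h4, map_mul, h2, one_mul] at h3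
    exact hvs.trans h3
  have hJ : Real.exp (-(((J + 1 : ℕ) : ℝ) * lam)) ≤ Real.exp (-(J * lam)) := by
    rw [Real.exp_le_exp]
    push_cast
    nlinarith
  rcases le_max_iff.1 h2s with h3 | h3
  · refine ⟨S, ?_⟩
    refine le_trans ?_ (hvts.trans hJ)
    exact le_mul_of_one_le_right (v.nonneg _) h3
  · refine ⟨-S, ?_⟩
    rw [map_neg, sub_neg_eq_add]
    refine le_trans ?_ (hvts.trans hJ)
    exact le_mul_of_one_le_left (v.nonneg _) h3

end Pool.Agent.Helper91.HX
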